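import Pool.Agent.Helper99.PG.Goals

/-!
Project C2 (MP_2b0227_gt), packet PG-C2 (helper89): CASE2.
-/

namespace Pool.Agent.Helper89.PG

open Pool.Agent.Helper99.PG

section

variable {V : Type} [Fintype V] {H : Hyp V} {κ : Bool} {W : Finset V} {A : V → Bool}
  {Z : Finset (Port V)} {zp zq g : Option V → ℝ}

theorem zp_01 (h : CycPot H κ W A Z zp zq g) (e : Option V) : zp e = 0 ∨ zp e = 1 := by
  cases e with
  | none => exact Or.inl h.zp_none
  | some v =>
    rw [h.zp_some]
    by_cases hv : (v, true) ∈ Z
    · exact Or.inr (if_pos hv)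
    · exact Or.inl (if_neg hv)

/-- the direction in which a port is left -/
theorem suc_true {p : Port V} {w : V} (hp : suc H.up (H.dn κ) W A p = some (w, true)) :
    H.α (some p.1) = some w ∧ ((p.1 ∈ W ∧ A p.1 = true) ∨ (p.1 ∉ W ∧ p.2 = true)) := by
  unfold suc at hp
  by_cases hW : p.1 ∈ W
  · rw [if_pos hW] at hp
    cases hA : A p.1 with
    | false =>
      rw [hA] at hp
      simp [nxt] at hp
    | true =>
      rw [hA] at hp
      simp only [nxt, if_true, Option.map_eq_some_iff, Prod.mk.injEq, and_true,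
        exists_eq_right] at hp
      exact ⟨hp, Or.inl ⟨hW, rfl⟩⟩
  · rw [if_neg hW] at hp
    cases hA : p.2 with
    | false =>
      rw [hA] at hp
      simp [nxt] at hp
    | true =>
      rw [hA] at hp
      simp only [nxt, if_true, Option.map_eq_some_iff, Prod.mk.injEq, and_true,
        exists_eq_right] at hp
      exact ⟨hp, Or.inr ⟨hW, rfl⟩⟩

theorem up_case (h : CycPot H κ W A Z zp zq g) (v : V) (h1 : g (H.α (some v)) ≤ 0)
    (h2 : 0 < g (some v)) : v ∈ W ∧ A v = true := by
  have e := h.hg (some v)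
  have z0 : zp (some v) = 0 := by
    rcases zp_01 h (some v) with h0 | h0
    · exact h0
    · rcases zp_01 h (H.α (some v)) with h3 | h3 <;> rw [h0, h3] at e <;> linarith
  have z1 : zp (H.α (some v)) = 1 := by
    rcases zp_01 h (H.α (some v)) with h3 | h3
    · rw [z0, h3] at e; linarith
    · exact h3
  cases hα : H.α (some v) with
  | none => rw [hα, h.zp_none] at z1; exact absurd z1 zero_ne_one
  | some w =>
    rw [hα, h.zp_some] at z1
    have hw : (w, true) ∈ Z := by
      by_contra hn
      rw [if_neg hn] at z1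
      exact zero_ne_one z1
    obtain ⟨p, hp, hs⟩ := h.prev _ hw
    obtain ⟨ha, hd⟩ := suc_true hs
    have hpv : p.1 = v := by
      have := H.α.injective (ha.trans hα.symm)
      exact Option.some_injective _ this
    rcases hd with hd | hd
    · rw [hpv] at hd; exact hd
    · exfalso
      have hpp : p = (v, true) := Prod.ext hpv hd.2
      rw [h.zp_some, if_pos (hpp ▸ hp)] at z0
      exact one_ne_zero z0

theorem down_case (h : CycPot H κ W A Z zp zq g) (v : V) (h1 : g (some v) ≤ 0)
    (h2 : 0 < g (H.α (some v))) : v ∈ W ∧ A v = false := by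
  have e := h.hg (some v)
  have z0 : zp (H.α (some v)) = 0 := by
    rcases zp_01 h (H.α (some v)) with h0 | h0
    · exact h0
    · rcases zp_01 h (some v) with h3 | h3 <;> rw [h0, h3] at e <;> linarith
  have z1 : zp (some v) = 1 := by
    rcases zp_01 h (some v) with h3 | h3
    · rw [z0, h3] at e; linarith
    · exact h3
  have hv : (v, true) ∈ Z := by
    rw [h.zp_some] at z1
    by_contra hn
    rw [if_neg hn] at z1
    exact zero_ne_one z1
  obtain ⟨q, hq, hs⟩ := h.next _ hv
  by_contra hcon
  have hs' : nxt H.up (H.dn κ) v true = some q := by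
    have h5 : suc H.up (H.dn κ) W A (v, true) = nxt H.up (H.dn κ) v true := by
      unfold suc
      congr 1
      by_cases hW : v ∈ W
      · rw [if_pos hW]
        show A v = true
        cases hA : A v with
        | true => rfl
        | false => exact absurd ⟨hW, hA⟩ hcon
      · rw [if_neg hW]
    rw [← h5]; exact hs
  simp only [nxt, if_true, Option.map_eq_some_iff] at hs'
  obtain ⟨w, hw, hwq⟩ := hs'
  have hα : H.α (some v) = some w := hw
  rw [hα, h.zp_some, if_pos (hwq ▸ hq)] at z0
  exact one_ne_zero z0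

end

theorem case2 : GoalCase2 := by
  intro V _ _ H κ W A Z zp zq g h hpos hA
  classical
  have hα0 : g (H.α none) = g none := by
    have := h.hg none
    rw [h.zp_none, h.zp_α] at this
    linarith
  have key : ∀ v : V, v ∉ W →
      (if g (H.α (some v)) ≤ 0 then (1 : ℝ) else 0) = (if g (some v) ≤ 0 then (1 : ℝ) else 0) := by
    intro v hv
    by_cases h1 : g (H.α (some v)) ≤ 0
    · by_cases h2 : g (some v) ≤ 0
      · rw [if_pos h1, if_pos h2]
      · exact absurd (up_case h v h1 (not_le.1 h2)).1 hv
    · by_cases h2 : g (some v) ≤ 0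
      · exact absurd (down_case h v h2 (not_le.1 h1)).1 hv
      · rw [if_neg h1, if_neg h2]
  refine ⟨fun v => if (if g (H.α (some v)) ≤ 0 then (1 : ℝ) else 0) =
      (if g (some v) ≤ 0 then (1 : ℝ) else 0) then A v else !A v,
    fun e => if g e ≤ 0 then 1 else 0, ?_, ?_, ?_, ?_, ?_, ?_, ?_⟩
  · intro v hv
    show (if _ then _ else _) = true
    rw [if_pos (key v hv)]
    exact hA v hv
  · intro e
    show (if g (H.β e) ≤ 0 then (1 : ℝ) else 0) = if g (H.α e) ≤ 0 then 1 else 0
    rw [h.face]
  · intro e
    show (0 : ℝ) ≤ if g e ≤ 0 then 1 else 0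
    split_ifs
    · exact zero_le_one
    · exact le_refl _
  · obtain ⟨⟨v, b⟩, hvb⟩ := h.ne
    cases b with
    | true =>
      refine ⟨some v, ?_⟩
      show (0 : ℝ) < if g (some v) ≤ 0 then 1 else 0
      rw [if_pos (h.zero v hvb).le]
      exact zero_lt_one
    | false =>
      refine ⟨H.α (some v), ?_⟩
      show (0 : ℝ) < if g (H.α (some v)) ≤ 0 then 1 else 0
      rw [if_pos (h.zero' v hvb).le]
      exact zero_lt_one
  · show (if g none ≤ 0 then (1 : ℝ) else 0) = 0
    rw [if_neg (not_le.2 hpos)]
  · show (if g (H.α none) ≤ 0 then (1 : ℝ) else 0) = 0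
    rw [hα0, if_neg (not_le.2 hpos)]
  · intro v
    show ((if A v = true then 1 else 0) - (if (if (if g (H.α (some v)) ≤ 0 then (1 : ℝ) else 0) =
      (if g (some v) ≤ 0 then (1 : ℝ) else 0) then A v else !A v) = true then 1 else 0) : ℝ) =
      (if g (H.α (some v)) ≤ 0 then (1 : ℝ) else 0) - (if g (some v) ≤ 0 then (1 : ℝ) else 0)
    by_cases h1 : g (H.α (some v)) ≤ 0
    · by_cases h2 : g (some v) ≤ 0
      · simp [h1, h2]
      · have hAv := (up_case h v h1 (not_le.1 h2)).2
        simp [h1, h2, hAv]
    · by_cases h2 : g (some v) ≤ 0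
      · have hAv := (down_case h v h2 (not_le.1 h1)).2
        simp [h1, h2, hAv]
      · simp [h1, h2]

end Pool.Agent.Helper89.PG
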