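import Pool.Agent.Helper52.PG.Goals

/-!
Project C2 (MP_2b0227_gt), packet PH-REVHH (helper89): reversal keeps HH1.
-/

namespace Pool.Agent.Helper89.PG

open Pool.Agent.Helper52.C2 Pool.Agent.Helper52.PG
open LaurentPolynomial

/-- sum of all coefficients -/
noncomputable def tot (f : ℝ[T;T⁻¹]) : ℝ := ∑ i ∈ f.coeff.support, f.coeff i

theorem pre_invert (f : ℝ[T;T⁻¹]) (i : ℤ) : pre (invert f) i = tot f - pre f (-i - 1) := by
  have h1 : pre (invert f) i = ∑ j ∈ f.coeff.support, if -j ≤ i then f.coeff j else 0 := by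
    unfold pre
    refine Finset.sum_nbij' (fun j => -j) (fun j => -j) ?_ ?_ ?_ ?_ ?_
    · intro j hj
      rw [Finsupp.mem_support_iff] at hj ⊢
      rwa [invert_apply] at hj
    · intro j hj
      rw [Finsupp.mem_support_iff] at hj ⊢
      rwa [invert_apply, neg_neg]
    · intro j _; exact neg_neg j
    · intro j _; exact neg_neg j
    · intro j _
      rw [invert_apply, neg_neg]
  rw [h1, tot, pre, ← Finset.sum_sub_distrib]
  refine Finset.sum_congr rfl fun j _ => ?_
  by_cases hj : -j ≤ i
  · rw [if_pos hj, if_neg (by omega), sub_zero]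
  · rw [if_neg hj, if_pos (by omega), sub_self]

theorem pre_big (f : ℝ[T;T⁻¹]) (N : ℤ) (h : ∀ i ∈ f.coeff.support, i ≤ N) : pre f N = tot f := by
  unfold pre tot
  exact Finset.sum_congr rfl fun i hi => if_pos (h i hi)

theorem tot_eq (hp : GoalPre) (S : Tg) : tot S.L = tot S.R := by
  let s : Finset ℤ := S.L.coeff.support ∪ S.R.coeff.support ∪ S.F.coeff.support
  let N : ℤ := ∑ i ∈ s, |i| + 1
  have hN : ∀ i ∈ s, i < N := by
    intro i hi
    have h1 : |i| ≤ ∑ i ∈ s, |i| :=
      Finset.single_le_sum (f := fun i : ℤ => |i|) (fun i _ => abs_nonneg i) hi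
    have h2 := le_abs_self i
    show i < ∑ i ∈ s, |i| + 1
    omega
  have hL : pre S.L N = tot S.L := pre_big _ _ fun i hi =>
    (hN i (by simp only [s, Finset.mem_union]; exact Or.inl (Or.inl hi))).le
  have hR : pre S.R N = tot S.R := pre_big _ _ fun i hi =>
    (hN i (by simp only [s, Finset.mem_union]; exact Or.inl (Or.inr hi))).le
  have hF : S.F.coeff N = 0 := by
    by_contra h0
    have h1 : N ∈ s := by
      simp only [s, Finset.mem_union]
      exact Or.inr (Finsupp.mem_support_iff.2 h0)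
    exact lt_irrefl _ (hN N h1)
  have h := hp.1 S N
  rw [hF, hL, hR] at h
  linarith

theorem h_rev (hp : GoalPre) (S : Tg) (n i : ℤ) : (rev S).h n i = S.h n (n - 1 - i) := by
  unfold Tg.h
  show pre (invert S.R) i - pre (invert S.L) (i - n) = _
  rw [pre_invert, pre_invert, tot_eq hp S]
  have e1 : -(i - n) - 1 = n - 1 - i := by ring
  have e2 : n - 1 - i - n = -i - 1 := by ring
  rw [e1, e2]
  ring

/-- exchange of `X` and `Y` -/
def sw : Dir Unit → Dir Unit
  | .X => .Y
  | .Y => .X
  | .V k => .V k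

theorem win_rev (hp : GoalPre) (S : Tg) (n : ℕ) (i : ℤ) (b c : Dir Unit) :
    (rev S).win n i b c = S.win n (n - 3 - i) (sw b) (sw c) := by
  rcases b with _ | _ | _ <;> rcases c with _ | _ | _ <;>
    simp only [Tg.win, sw, h_rev hp]
  · congr 1; ring
  · congr 1; ring
  · congr 1; ring
  · congr 1; ring
  · congr 1; ring
  · congr 1; ring
  · congr 1; ring
  · congr 1; ring
  · by_cases hn : n = 1
    · subst hn
      rw [if_pos rfl, if_pos rfl]
      congr 2
    · rw [if_neg hn, if_neg hn]
      congr 1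
      ring

theorem revHH : GoalRevHH := by
  intro hp hmap S hS
  refine ⟨⟨?_, ?_, ?_⟩, ?_⟩
  · intro i
    show 0 ≤ (invert S.R).coeff i
    rw [invert_apply]
    exact hS.nonneg.R _
  · intro i
    show 0 ≤ (invert S.L).coeff i
    rw [invert_apply]
    exact hS.nonneg.L _
  · intro i
    show 0 ≤ (T (-1) * invert S.F).coeff i
    have h1 := hp.2.1 (T (-1) * invert S.F) i
    rw [hp.2.2.2.1, hp.2.2.2.1] at h1
    have h2 := hp.2.1 (invert S.F) (i - -1)
    have e : i - -1 - 1 = i - 1 - -1 := by ring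
    rw [e] at h2
    rw [← h1, h2, invert_apply]
    exact hS.nonneg.F _
  · intro n i
    refine hmap (Dir Unit) (Dir Unit) _ _ (S.win n (n - 3 - i)) _ sw (hS.win n (n - 3 - i)) ?_ ?_
    · intro b hb
      rcases b with _ | _ | _
      · trivial
      · trivial
      · exact hb
    · intro b c _ _
      exact win_rev hp S n i b c

end Pool.Agent.Helper89.PG
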